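import Pool.Agent.H97.NR.Tools

set_option autoImplicit false

open MeasureTheory ProbabilityTheory

noncomputable section

open Classical

namespace Pool.Agent.H97.NR

open Pool.Agent.H99.NR

lemma sqrt_n_pos {n : ℕ} (hn : 1 ≤ n) : 0 < √(n : ℝ) :=
  Real.sqrt_pos.2 (by exact_mod_cast hn)

lemma Law.sq_int {K : ℝ} {n : ℕ} {ν : Measure ℝ} (h : Law K n ν) :
    Integrable (fun a : ℝ => a ^ 2) ν := by
  have := h.prob
  refine Integrable.of_bound (by fun_prop) ((K * √n) ^ 2) ?_
  filter_upwards [h.bdd] with a ha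
  rw [Real.norm_of_nonneg (sq_nonneg a), ← sq_abs a]
  exact pow_le_pow_left₀ (abs_nonneg a) ha 2

/-- exponential moment of the large part of an entry -/
lemma lgp_exp {K : ℝ} {n : ℕ} {ν : Measure ℝ} (hK : 1 ≤ K) (hn : 1 ≤ n) (h : Law K n ν)
    {β θ : ℝ} (hβ : 0 < β) (hθ : 0 ≤ θ) (hθ1 : θ * (K * √n) ≤ 1) :
    Integrable (fun a => Real.exp (θ * lgp β a)) ν ∧
    ∫ a, Real.exp (θ * lgp β a) ∂ν ≤ Real.exp (2 * θ / β) := by
  have := h.prob
  have hb : ∀ᵐ a ∂ν, 0 ≤ lgp β a ∧ lgp β a ≤ K * √n ∧ lgp β a ≤ a ^ 2 / β := by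
    filter_upwards [h.bdd] with a ha
    unfold lgp
    split_ifs with h1
    · exact ⟨le_refl _, (abs_nonneg a).trans ha, by positivity⟩
    · refine ⟨abs_nonneg a, ha, ?_⟩
      rw [le_div_iff₀ hβ, ← sq_abs a]
      push Not at h1
      nlinarith [abs_nonneg a]
  have hint : Integrable (fun a => Real.exp (θ * lgp β a)) ν := by
    refine Integrable.of_bound ?_ (Real.exp 1) ?_
    · exact (Real.measurable_exp.comp ((lgp_meas β).const_mul θ)).aestronglyMeasurable
    · filter_upwards [hb] with a ha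
      rw [Real.norm_of_nonneg (Real.exp_pos _).le]
      apply Real.exp_le_exp.2
      exact (mul_le_mul_of_nonneg_left ha.2.1 hθ).trans hθ1
  refine ⟨hint, ?_⟩
  have hle : ∀ᵐ a ∂ν, Real.exp (θ * lgp β a) ≤ 1 + 2 * θ / β * a ^ 2 := by
    filter_upwards [hb] with a ha
    obtain ⟨h0, h1, h2⟩ := ha
    set y := θ * lgp β a with hy
    have hy0 : 0 ≤ y := mul_nonneg hθ h0
    have hy1 : y ≤ 1 := (mul_le_mul_of_nonneg_left h1 hθ).trans hθ1
    have h3 : Real.exp y ≤ 1 + 2 * y := by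
      have h4 := Real.abs_exp_sub_one_sub_id_le (x := y) (by rw [abs_of_nonneg hy0]; exact hy1)
      have h5 := le_abs_self (Real.exp y - 1 - y)
      nlinarith
    have h6 : y ≤ θ * (a ^ 2 / β) := mul_le_mul_of_nonneg_left h2 hθ
    calc Real.exp y ≤ 1 + 2 * y := h3
      _ ≤ 1 + 2 * (θ * (a ^ 2 / β)) := by linarith
      _ = 1 + 2 * θ / β * a ^ 2 := by ring
  have h7 : ∫ a, Real.exp (θ * lgp β a) ∂ν ≤ ∫ a, (1 + 2 * θ / β * a ^ 2) ∂ν :=
    integral_mono_ae hint ((integrable_const _).add ((Law.sq_int h).const_mul _)) hle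
  rw [integral_add (integrable_const _) ((Law.sq_int h).const_mul _), integral_const_mul,
    h.var] at h7
  simp only [integral_const, probReal_univ, smul_eq_mul, mul_one] at h7
  have h8 := Real.add_one_le_exp (2 * θ / β)
  linarith

/-- probability that a row has a large sum of large entries -/
lemma row_large {K : ℝ} {n : ℕ} {ν : Measure ℝ} (hK : 1 ≤ K) (hn : 1 ≤ n) (h : Law K n ν)
    {L : ℝ} (hL : 0 < L) {κ : ℕ} (hc : (2:ℝ) ^ κ ≤ 16 * K * L) :
    (rowLaw n ν).real {r | (32 + 10 * K) * L * √n < ∑ j, lgp (K * √n / 2 ^ κ) (r j)} ≤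
      Real.exp (-(10 * L)) := by
  have := h.prob
  have hs := sqrt_n_pos hn
  have hss : √(n:ℝ) * √(n:ℝ) = n := Real.mul_self_sqrt (by positivity)
  set β : ℝ := K * √n / 2 ^ κ with hβ
  have hβ0 : 0 < β := by positivity
  set θ : ℝ := 1 / (K * √n) with hθ
  have hθ0 : 0 < θ := by positivity
  have hθK : θ * (K * √n) = 1 := by rw [hθ]; field_simp
  obtain ⟨hint, hbd⟩ := lgp_exp hK hn h (β := β) (θ := θ) hβ0 hθ0.le hθK.le
  have hmain := pi_markov ν n (fun a => θ * lgp β a) hint (2 * θ / β) hbd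
    (θ * ((32 + 10 * K) * L * √n))
  have hset : {r : Fin n → ℝ | (32 + 10 * K) * L * √n < ∑ j, lgp β (r j)} =
      {r | θ * ((32 + 10 * K) * L * √n) < ∑ j, θ * lgp β (r j)} := by
    ext r
    simp only [Set.mem_setOf_eq]
    rw [← Finset.mul_sum]
    exact (mul_lt_mul_iff_right₀ hθ0).symm
  unfold rowLaw
  rw [hset]
  refine hmain.trans ?_
  apply Real.exp_le_exp.2
  have h1 : (n:ℝ) * (2 * θ / β) = 2 * 2 ^ κ / K ^ 2 := by
    rw [hθ, hβ]
    have h2 : (n:ℝ) = √n * √n := hss.symm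
    field_simp
    rw [Real.sq_sqrt (by positivity)]
  have h3 : θ * ((32 + 10 * K) * L * √n) = (32 + 10 * K) * L / K := by
    rw [hθ]; field_simp
  rw [h1, h3]
  have h4 : 2 * 2 ^ κ / K ^ 2 ≤ 32 * L / K := by
    rw [div_le_div_iff₀ (by positivity) (by positivity)]
    nlinarith
  have h5 : (32 + 10 * K) * L / K = 32 * L / K + 10 * L := by
    field_simp
  rw [h5]
  linarith

theorem COL : S_COL := by
  intro K ε n κ ν hK hn hε hε6 h hc
  have := h.prob
  set L := Real.log (1 / ε) with hLdef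
  have hL1 : 1 < L := L_gt_one hε hε6
  have hn0 : (0:ℝ) < n := by exact_mod_cast hn
  have hrow := row_large hK hn h (by linarith : 0 < L) hc.2
  set S : Set (Fin n → ℝ) := {r | (32 + 10 * K) * L * √n < ∑ j, lgp (K * √n / 2 ^ κ) (r j)} with hS
  have hSm : MeasurableSet S := by
    apply measurableSet_lt measurable_const
    exact Finset.measurable_sum _ fun j _ => (lgp_meas _).comp (measurable_pi_apply j)
  have : IsProbabilityMeasure (rowLaw n ν) := by unfold rowLaw; infer_instance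
  let g : (Fin n → ℝ) → ℝ := fun r => S.indicator (fun _ => (4:ℝ)) r
  have hge : ∀ r, Real.exp (g r) = 1 + S.indicator (fun _ => Real.exp 4 - 1) r := by
    intro r
    by_cases hr : r ∈ S
    · simp [g, hr]
    · simp [g, hr]
  have hI : Integrable (S.indicator (fun _ => Real.exp 4 - 1)) (rowLaw n ν) :=
    (integrable_const _).indicator hSm
  have hint : Integrable (fun r => Real.exp (g r)) (rowLaw n ν) := by
    simp_rw [hge]
    exact (integrable_const _).add hI
  have he4 : Real.exp 4 ≤ 55 := by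
    have h1 : Real.exp 4 = Real.exp 1 ^ 4 := by
      rw [← Real.exp_nat_mul]; norm_num
    have h2 := Real.exp_one_lt_d9
    rw [h1]
    have h3 : Real.exp 1 ^ 4 ≤ 2.7182818286 ^ 4 := pow_le_pow_left₀ (Real.exp_pos _).le h2.le 4
    refine h3.trans ?_
    norm_num
  have hp : Real.exp (-(10 * L)) = ε ^ 10 := by
    have h1 : -(10 * L) = (10:ℕ) * (-L) := by push_cast; ring
    rw [h1, Real.exp_nat_mul, exp_neg_L hε]
  have hbd : ∫ r, Real.exp (g r) ∂(rowLaw n ν) ≤ Real.exp (54 * ε ^ 10) := by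
    simp_rw [hge]
    rw [integral_add (integrable_const _) hI, integral_indicator hSm, setIntegral_const]
    simp only [integral_const, probReal_univ, smul_eq_mul, mul_one]
    have h1 : (rowLaw n ν).real S * (Real.exp 4 - 1) ≤ ε ^ 10 * 54 := by
      apply mul_le_mul (hrow.trans hp.le) (by linarith)
      · have := Real.add_one_le_exp (4:ℝ)
        linarith
      · positivity
    have h2 := Real.add_one_le_exp (54 * ε ^ 10)
    linarith
  have hmain := pi_markov (rowLaw n ν) n g hint (54 * ε ^ 10) hbd (ε * n)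
  have hsub : {a : Fin n → Fin n → ℝ | ε * n / 4 < ((Finset.univ.filter fun i : Fin n =>
      (32 + 10 * K) * L * √n < ∑ j, lgp (K * √n / 2 ^ κ) (a i j)).card : ℝ)} ⊆
      {a | ε * n < ∑ i, g (a i)} := by
    intro a ha
    simp only [Set.mem_setOf_eq] at ha ⊢
    have h1 : ∑ i, g (a i) = 4 * ((Finset.univ.filter fun i : Fin n =>
      (32 + 10 * K) * L * √n < ∑ j, lgp (K * √n / 2 ^ κ) (a i j)).card : ℝ) := by
      rw [Finset.card_filter]
      push_cast
      rw [Finset.mul_sum]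
      refine Finset.sum_congr rfl fun i _ => ?_
      simp only [g, Set.indicator, hS, Set.mem_setOf_eq]
      split_ifs <;> simp
    rw [h1]
    linarith
  have hmono : (matLaw n ν).real {a : Fin n → Fin n → ℝ | ε * n / 4 <
      ((Finset.univ.filter fun i : Fin n => (32 + 10 * K) * L * √n <
        ∑ j, lgp (K * √n / 2 ^ κ) (a i j)).card : ℝ)} ≤
      (Measure.pi fun _ : Fin n => rowLaw n ν).real {a | ε * n < ∑ i, g (a i)} := by
    unfold matLaw
    exact measureReal_mono hsub (measure_ne_top _ _)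
  refine hmono.trans (hmain.trans ?_)
  apply Real.exp_le_exp.2
  have h9 : 54 * ε ^ 9 ≤ 1 / 10 := by
    have h10 : ε ^ 9 ≤ (1 / 6) ^ 9 := pow_le_pow_left₀ hε.le hε6 9
    have : (54:ℝ) * (1 / 6) ^ 9 ≤ 1 / 10 := by norm_num
    linarith
  have h11 : (n:ℝ) * (54 * ε ^ 10) = (54 * ε ^ 9) * (ε * n) := by ring
  rw [h11]
  have h12 : 0 < ε * n := by positivity
  nlinarith

end Pool.Agent.H97.NR
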