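import Pool.Agent.H97.NR.Tools

set_option autoImplicit false

open MeasureTheory ProbabilityTheory

noncomputable section

open Classical

namespace Pool.Agent.H97.NR

open Pool.Agent.H99.NR

lemma ina_core {L ρ : ℝ} (hL : 8 / 7 ≤ L) (hρ : 1 ≤ ρ) :
    Real.log ρ - 3 ≤ 7 / 4 * L * Real.log (1 + ρ / (4 * L)) := by
  have hL0 : 0 < L := by linarith
  have hlogρ : 0 ≤ Real.log ρ := Real.log_nonneg hρ
  by_cases h1 : 16 * L ^ 2 ≤ ρ
  · -- large ρ
    have h2 : 4 * L ≤ √ρ := by
      apply Real.le_sqrt_of_sq_le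
      nlinarith
    have h3 : √ρ ≤ ρ / (4 * L) := by
      rw [le_div_iff₀ (by positivity)]
      have h4 : √ρ * √ρ = ρ := Real.mul_self_sqrt (by linarith)
      have h5 : 0 ≤ √ρ := Real.sqrt_nonneg _
      nlinarith
    have h6 : Real.log ρ / 2 ≤ Real.log (1 + ρ / (4 * L)) := by
      rw [← Real.log_sqrt (by linarith)]
      apply Real.log_le_log (Real.sqrt_pos.2 (by linarith))
      linarith
    nlinarith
  · push Not at h1
    have hz : 0 ≤ ρ / (4 * L) := by positivity
    have h2 := log_one_add_ge hz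
    have h3 : ρ / (4 * L) / (1 + ρ / (4 * L)) = ρ / (4 * L + ρ) := by
      field_simp
    rw [h3] at h2
    have h4 : 7 / 4 * L * (ρ / (4 * L + ρ)) ≤ 7 / 4 * L * Real.log (1 + ρ / (4 * L)) :=
      mul_le_mul_of_nonneg_left h2 (by positivity)
    refine le_trans ?_ h4
    by_cases h5 : ρ ≤ 4 * L
    · have h6 : 7 / 32 * ρ ≤ 7 / 4 * L * (ρ / (4 * L + ρ)) := by
        rw [mul_div_assoc', le_div_iff₀ (by positivity)]
        nlinarith [mul_nonneg (by linarith : (0:ℝ) ≤ ρ) (by linarith : (0:ℝ) ≤ 4 * L - ρ)]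
      have h7 : Real.log (7 / 32 * ρ) ≤ 7 / 32 * ρ - 1 := Real.log_le_sub_one_of_pos (by positivity)
      rw [Real.log_mul (by norm_num) (by linarith)] at h7
      have h8 : Real.log (32 / 7) ≤ 32 / 7 - 1 := Real.log_le_sub_one_of_pos (by norm_num)
      have h9 : Real.log (7 / 32) = -Real.log (32 / 7) := by
        rw [← Real.log_inv]; norm_num
      rw [h9] at h7
      linarith
    · push Not at h5
      have h6 : 7 / 8 * L ≤ 7 / 4 * L * (ρ / (4 * L + ρ)) := by
        rw [mul_div_assoc', le_div_iff₀ (by positivity)]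
        nlinarith [mul_nonneg hL0.le (by linarith : (0:ℝ) ≤ ρ - 4 * L)]
      have h7 : Real.log ρ ≤ Real.log ((4 * L) ^ 2) := by
        apply Real.log_le_log (by linarith)
        nlinarith
      rw [Real.log_pow] at h7
      have h8 : Real.log (7 / 64 * (4 * L)) ≤ 7 / 64 * (4 * L) - 1 :=
        Real.log_le_sub_one_of_pos (by positivity)
      rw [Real.log_mul (by norm_num) (by positivity)] at h8
      have h9 : Real.log (7 / 64) = -Real.log (64 / 7) := by
        rw [← Real.log_inv]; norm_num
      have h10 : Real.log (64 / 7) ≤ 5 / 2 := by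
        rw [Real.log_le_iff_le_exp (by norm_num)]
        have h11 : Real.exp (5 / 2) = Real.exp 1 * Real.exp 1 * Real.exp (1 / 2) := by
          rw [← Real.exp_add, ← Real.exp_add]; norm_num
        have h12 := Real.add_one_le_exp (1 / 2 : ℝ)
        have h13 := Real.exp_one_gt_d9
        rw [h11]
        have h14 : (2.7:ℝ) * 2.7 ≤ Real.exp 1 * Real.exp 1 := by nlinarith
        have h15 : (2.7:ℝ) * 2.7 * (3 / 2) ≤ Real.exp 1 * Real.exp 1 * Real.exp (1 / 2) :=
          mul_le_mul h14 (by linarith) (by norm_num) (by positivity)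
        refine le_trans ?_ h15
        norm_num
      rw [h9] at h8
      push_cast at h7
      linarith

theorem INA : S_INA := by
  intro K hK
  refine ⟨1 / (16 * (1 + 40000 * K ^ 2)), by positivity, ?_⟩
  intro L ρ s hL hρ hs hsK
  have hL1 : 1 < L := log6.trans_le hL
  have hL87 : 8 / 7 ≤ L := by
    have h1 : Real.exp (8 / 7) ≤ 6 := by
      have h2 : Real.exp (8 / 7) = Real.exp 1 * Real.exp (1 / 7) := by
        rw [← Real.exp_add]; norm_num
      have h3 : Real.exp (1 / 7) ≤ 7 / 6 := by
        have h4 := Real.add_one_le_exp (-(1 / 7) : ℝ)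
        have h5 : Real.exp (-(1 / 7)) * Real.exp (1 / 7) = 1 := by
          rw [← Real.exp_add]; simp
        have h6 := Real.exp_pos (1 / 7 : ℝ)
        nlinarith
      have h7 := Real.exp_one_lt_d9
      rw [h2]
      have := Real.exp_pos (1:ℝ)
      nlinarith
    have h8 : (8 / 7 : ℝ) ≤ Real.log 6 := (Real.le_log_iff_exp_le (by norm_num)).2 h1
    linarith
  have hL0 : 0 < L := by linarith
  -- monotonicity in s and ρ
  have hA : Real.log (1 + s / (4 * L)) ≤ Real.log (1 + s * ρ / (4 * L)) := by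
    apply Real.log_le_log (by positivity)
    gcongr
    nlinarith
  have hB : Real.log (1 + ρ / (4 * L)) ≤ Real.log (1 + s * ρ / (4 * L)) := by
    apply Real.log_le_log (by positivity)
    gcongr
    nlinarith
  have hlog0 : 0 ≤ Real.log (1 + ρ / (4 * L)) := Real.log_nonneg (by
    have : 0 ≤ ρ / (4 * L) := by positivity
    linarith)
  -- second part
  have h2 : Real.log ρ - 3 ≤ 7 / 4 * L * s * Real.log (1 + s * ρ / (4 * L)) := by
    refine (ina_core hL87 hρ).trans ?_
    have h3 : 7 / 4 * L * Real.log (1 + ρ / (4 * L)) ≤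
        7 / 4 * L * (s * Real.log (1 + s * ρ / (4 * L))) := by
      apply mul_le_mul_of_nonneg_left _ (by positivity)
      nlinarith
    linarith
  -- first part
  have h1 : 1 / (16 * (1 + 40000 * K ^ 2)) * s ^ 2 ≤
      1 / 4 * L * s * Real.log (1 + s * ρ / (4 * L)) := by
    have hz : 0 ≤ s / (4 * L) := by positivity
    have h4 := (log_one_add_ge hz).trans hA
    have h5 : s / (4 * L) / (1 + s / (4 * L)) = s / (4 * L + s) := by
      field_simp
    rw [h5] at h4
    have h6 : s / (4 * L * (1 + 40000 * K ^ 2)) ≤ s / (4 * L + s) := by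
      apply div_le_div_of_nonneg_left (by linarith) (by positivity)
      nlinarith
    calc 1 / (16 * (1 + 40000 * K ^ 2)) * s ^ 2
        = 1 / 4 * L * s * (s / (4 * L * (1 + 40000 * K ^ 2))) := by
          field_simp
          try ring
      _ ≤ 1 / 4 * L * s * Real.log (1 + s * ρ / (4 * L)) :=
          mul_le_mul_of_nonneg_left (h6.trans h4) (by positivity)
  linarith

end Pool.Agent.H97.NR
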