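import Pool.Agent.H97.NR.COL

set_option autoImplicit false

open MeasureTheory ProbabilityTheory

noncomputable section

open Classical

namespace Pool.Agent.H97.NR

open Pool.Agent.H99.NR

/-- off the event that some level `≥ κ` is bad, `Y'` is the plain sum -/
lemma Yr_eq {K L : ℝ} {n κ : ℕ} {u : ℝ} (hK : 1 ≤ K) (x : Fin n → SignType) (r : Fin n → ℝ)
    (hr : ¬ ∃ k, κ ≤ k ∧ bad K L n k r) :
    Yr K L n (K * √n / 2 ^ κ) u x r = ∑ j, (x j : ℝ) * (sm (K * √n / 2 ^ κ) (r j) - u) := by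
  unfold Yr
  refine Finset.sum_congr rfl fun j _ => ?_
  by_cases hj : j ∈ exc K L n r
  · rw [if_pos hj]
    unfold exc at hj
    rw [Finset.mem_filter] at hj
    obtain ⟨-, k, hk1, hk2⟩ := hj
    have hkκ : k < κ := by
      by_contra hcon
      exact hr ⟨k, not_lt.1 hcon, hk2⟩
    have h1 : K * √n / 2 ^ κ < |r j| := by
      refine lt_of_le_of_lt ?_ hk1.1
      apply div_le_div_of_nonneg_left (by positivity) (by positivity)
      exact pow_le_pow_right₀ (by norm_num) hkκ
    unfold sm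
    rw [if_neg (not_le.2 h1)]
  · rw [if_neg hj]

theorem ROW1 (hBEN : S_BEN) (hBAD : S_BAD) (hINA : S_INA) : S_ROW1 := by
  intro K hK
  obtain ⟨c0, hc0, hina⟩ := hINA K hK
  set c1 : ℝ := 1 / (1600000 * K ^ 2) with hc1
  have hc1p : 0 < c1 := by positivity
  refine ⟨min c0 c1, 2 * Real.exp 3 + 4, lt_min hc0 hc1p, by positivity, ?_⟩
  intro ε n κ ν hn hε hε6 h hc x hx s hs hsK
  have hprob := h.prob
  have hprow : IsProbabilityMeasure (rowLaw n ν) := by unfold rowLaw; infer_instance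
  set L := Real.log (1 / ε) with hLdef
  have hL1 : 1 < L := L_gt_one hε hε6
  have hn0 : (0:ℝ) < n := by exact_mod_cast hn
  have hsq := sqrt_n_pos hn
  have hss : √(n:ℝ) * √(n:ℝ) = n := Real.mul_self_sqrt (by positivity)
  have hs1 : (1:ℝ) ≤ s := by exact_mod_cast hs
  have hm0 : (0:ℝ) < sz x := lt_of_lt_of_le (by positivity) hx
  have hm1 : 1 ≤ sz x := by exact_mod_cast Nat.one_le_iff_ne_zero.2 (by
    intro h0; rw [h0] at hm0; simp at hm0)
  have hmn : (sz x : ℝ) ≤ n := by
    have : sz x ≤ n := by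
      unfold sz
      exact (Finset.card_filter_le _ _).trans (by simp)
    exact_mod_cast this
  set β : ℝ := K * √n / 2 ^ κ with hβ
  have hβ0 : 0 < β := by positivity
  set u : ℝ := ∫ a, sm β a ∂ν with hu
  -- bounds for the small part
  have hsmb : ∀ a, |sm β a| ≤ β := by
    intro a
    unfold sm
    split_ifs with h1
    · exact h1
    · simpa using hβ0.le
  have hsmi : Integrable (sm β) ν :=
    Integrable.of_bound (sm_meas β).aestronglyMeasurable β (Filter.Eventually.of_forall fun a => by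
      rw [Real.norm_eq_abs]; exact hsmb a)
  have hub : |u| ≤ β := by
    rw [hu, ← Real.norm_eq_abs]
    have h1 := norm_integral_le_of_norm_le_const (μ := ν) (f := sm β) (C := β)
      (Filter.Eventually.of_forall fun a => by rw [Real.norm_eq_abs]; exact hsmb a)
    simpa using h1
  set b : ℝ := √n / (4 * L) with hb
  have hb0 : 0 < b := by positivity
  have hβb : 2 * β ≤ b := by
    rw [hβ, hb, mul_div_assoc', div_le_div_iff₀ (by positivity) (by positivity)]
    have h1 := hc.1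
    have h2 : √(n:ℝ) * (8 * K * L) ≤ √n * 2 ^ κ := mul_le_mul_of_nonneg_left h1 hsq.le
    nlinarith
  have hfb : ∀ a, |sm β a - u| ≤ b := by
    intro a
    have h1 := abs_sub (sm β a) u
    have h2 := hsmb a
    linarith
  have hsq_int : Integrable (fun a => sm β a ^ 2) ν := by
    refine Integrable.of_bound ((sm_meas β).pow_const 2).aestronglyMeasurable (β ^ 2)
      (Filter.Eventually.of_forall fun a => ?_)
    rw [Real.norm_of_nonneg (sq_nonneg _), ← sq_abs]
    exact pow_le_pow_left₀ (abs_nonneg _) (hsmb a) 2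
  have hmean : ∫ a, (sm β a - u) ∂ν = 0 := by
    rw [integral_sub hsmi (integrable_const _)]
    simp [hu]
  have hvar : ∫ a, (sm β a - u) ^ 2 ∂ν ≤ 1 := by
    have h1 : ∀ a, (sm β a - u) ^ 2 = sm β a ^ 2 - 2 * u * sm β a + u ^ 2 := fun a => by ring
    simp_rw [h1]
    have hi : Integrable (fun a => sm β a ^ 2 - 2 * u * sm β a) ν :=
      hsq_int.sub (hsmi.const_mul (2 * u))
    rw [integral_add hi (integrable_const _),
      integral_sub hsq_int (hsmi.const_mul (2 * u)), integral_const_mul, ← hu]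
    simp only [integral_const, probReal_univ, smul_eq_mul, one_mul]
    have h2 : ∫ a, sm β a ^ 2 ∂ν ≤ ∫ a, a ^ 2 ∂ν := by
      apply integral_mono hsq_int (Law.sq_int h)
      intro a
      simp only [sm]
      split_ifs with h1
      · exact le_refl _
      · simpa using sq_nonneg a
    rw [h.var] at h2
    nlinarith [sq_nonneg u]
  -- the Bennett bound
  have hben := hBEN n ν (fun a => sm β a - u) b hprob ((sm_meas β).sub_const u) hb0
    (Filter.Eventually.of_forall hfb) hmean hvar x (s * √n) hm1 (by positivity)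
  have hbad := hBAD K L n ν hK (by linarith) hn h κ
  -- splitting the event
  have hsub : {r : Fin n → ℝ | s * √n < |Yr K L n β u x r|} ⊆
      {r | ∃ k, κ ≤ k ∧ bad K L n k r} ∪
      {r | s * √n < |∑ j, (x j : ℝ) * (sm β (r j) - u)|} := by
    intro r hr
    by_cases hbr : ∃ k, κ ≤ k ∧ bad K L n k r
    · exact Or.inl hbr
    · right
      have h1 := Yr_eq (u := u) hK x r hbr
      change s * √n < |∑ j, (x j : ℝ) * (sm β (r j) - u)|
      rw [← h1]
      exact hr
  have hP := (measureReal_mono (μ := rowLaw n ν) hsub (measure_ne_top _ _)).trans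
    (measureReal_union_le _ _)
  refine hP.trans ((add_le_add hbad hben).trans ?_)
  -- the first term
  set ρ : ℝ := n / sz x with hρ
  have hρ1 : 1 ≤ ρ := by rw [hρ, le_div_iff₀ hm0]; linarith
  have hE1 : Real.exp (-(500 * 4 ^ κ)) ≤
      4 * (sz x / n) * Real.exp (-(min c0 c1 * (s:ℝ) ^ 2)) := by
    have h1 : (64 * K ^ 2 * L ^ 2 : ℝ) ≤ 4 ^ κ := by
      have h2 : (4:ℝ) ^ κ = 2 ^ κ * 2 ^ κ := by rw [← mul_pow]; norm_num
      rw [h2]
      have h3 := hc.1
      have h4 : (8 * K * L) * (8 * K * L) ≤ (2:ℝ) ^ κ * 2 ^ κ :=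
        mul_le_mul h3 h3 (by positivity) (by positivity)
      nlinarith
    have h5 : c1 * (s:ℝ) ^ 2 ≤ 16000 * K ^ 2 * L ^ 2 := by
      have h6 : (s:ℝ) ^ 2 ≤ (160000 * K ^ 2 * L) ^ 2 := pow_le_pow_left₀ (by positivity) hsK 2
      calc c1 * (s:ℝ) ^ 2 ≤ c1 * (160000 * K ^ 2 * L) ^ 2 := mul_le_mul_of_nonneg_left h6 hc1p.le
        _ = 16000 * K ^ 2 * L ^ 2 := by rw [hc1]; field_simp; norm_num
    have h7 : min c0 c1 * (s:ℝ) ^ 2 ≤ c1 * (s:ℝ) ^ 2 :=
      mul_le_mul_of_nonneg_right (min_le_right _ _) (by positivity)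
    have h8 : L ≤ 16000 * K ^ 2 * L ^ 2 := by
      have : 1 ≤ K ^ 2 := one_le_pow₀ hK
      nlinarith
    have h9 : ε ≤ 4 * (sz x / n) := by
      rw [mul_div_assoc', le_div_iff₀ hn0]
      linarith
    calc Real.exp (-(500 * 4 ^ κ)) ≤ Real.exp (-L + -(min c0 c1 * (s:ℝ) ^ 2)) := by
          apply Real.exp_le_exp.2
          nlinarith
      _ = ε * Real.exp (-(min c0 c1 * (s:ℝ) ^ 2)) := by rw [Real.exp_add, exp_neg_L hε]
      _ ≤ 4 * (sz x / n) * Real.exp (-(min c0 c1 * (s:ℝ) ^ 2)) :=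
          mul_le_mul_of_nonneg_right h9 (Real.exp_pos _).le
  -- the second term
  have hE2 : 2 * Real.exp (-(s * √n / (2 * b) * Real.log (1 + b * (s * √n) / sz x))) ≤
      2 * Real.exp 3 * (sz x / n) * Real.exp (-(min c0 c1 * (s:ℝ) ^ 2)) := by
    have h1 : s * √n / (2 * b) = 2 * L * s := by
      rw [hb]; field_simp; ring
    have h2 : b * (s * √n) / sz x = s * ρ / (4 * L) := by
      rw [hb, hρ]
      field_simp
      rw [Real.sq_sqrt (by positivity)]
    rw [h1, h2]
    have h3 := hina L ρ s (L_ge hε hε6) hρ1 hs1 hsK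
    have h4 : min c0 c1 * (s:ℝ) ^ 2 ≤ c0 * (s:ℝ) ^ 2 :=
      mul_le_mul_of_nonneg_right (min_le_left _ _) (by positivity)
    have h5 : Real.exp (-(2 * L * s * Real.log (1 + s * ρ / (4 * L)))) ≤
        Real.exp (3 + (-Real.log ρ + -(min c0 c1 * (s:ℝ) ^ 2))) := by
      apply Real.exp_le_exp.2
      linarith
    rw [Real.exp_add, Real.exp_add] at h5
    have h6 : Real.exp (-Real.log ρ) = sz x / n := by
      rw [Real.exp_neg, Real.exp_log (by linarith), hρ, inv_div]
    rw [h6] at h5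
    calc 2 * Real.exp (-(2 * L * s * Real.log (1 + s * ρ / (4 * L))))
        ≤ 2 * (Real.exp 3 * (sz x / n * Real.exp (-(min c0 c1 * (s:ℝ) ^ 2)))) := by linarith
      _ = _ := by ring
  calc _ ≤ 4 * (sz x / n) * Real.exp (-(min c0 c1 * (s:ℝ) ^ 2)) +
        2 * Real.exp 3 * (sz x / n) * Real.exp (-(min c0 c1 * (s:ℝ) ^ 2)) := add_le_add hE1 hE2
    _ = _ := by ring

end Pool.Agent.H97.NR
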