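import Pool.Agent.H99.NR.Stm

set_option autoImplicit false

open MeasureTheory ProbabilityTheory

noncomputable section

open Classical

namespace Pool.Agent.H97.NR

open Pool.Agent.H99.NR

/-- Chernoff bound for a sum of functions of independent identically distributed coordinates. -/
lemma pi_markov {X : Type*} [MeasurableSpace X] (μ : Measure X) [IsProbabilityMeasure μ] (n : ℕ)
    (g : X → ℝ) (hint : Integrable (fun x => Real.exp (g x)) μ) (b : ℝ)
    (hb : ∫ x, Real.exp (g x) ∂μ ≤ Real.exp b) (t : ℝ) :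
    (Measure.pi fun _ : Fin n => μ).real {a | t < ∑ i, g (a i)} ≤ Real.exp (n * b - t) := by
  have h1 : Integrable (fun a : Fin n → X => ∏ i, Real.exp (g (a i)))
      (Measure.pi fun _ : Fin n => μ) :=
    Integrable.fintype_prod (f := fun _ x => Real.exp (g x)) (fun _ => hint)
  have h2 : ∫ a : Fin n → X, ∏ i, Real.exp (g (a i)) ∂(Measure.pi fun _ : Fin n => μ) =
      (∫ x, Real.exp (g x) ∂μ) ^ n := by
    rw [integral_fintype_prod_eq_prod (f := fun _ x => Real.exp (g x))]
    simp
  have h3 : ∀ a : Fin n → X, ∏ i, Real.exp (g (a i)) = Real.exp (∑ i, g (a i)) := fun a =>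
    (Real.exp_sum _ _).symm
  simp_rw [h3] at h1 h2
  have h4 := mul_meas_ge_le_integral_of_nonneg
    (μ := Measure.pi fun _ : Fin n => μ) (f := fun a => Real.exp (∑ i, g (a i)))
    (Filter.Eventually.of_forall fun a => (Real.exp_pos _).le) h1 (Real.exp t)
  rw [h2] at h4
  have h5 : (∫ x, Real.exp (g x) ∂μ) ^ n ≤ Real.exp (n * b) := by
    rw [Real.exp_nat_mul]
    exact pow_le_pow_left₀ (integral_nonneg fun x => (Real.exp_pos _).le) hb n
  have h6 : (Measure.pi fun _ : Fin n => μ).real {a | t < ∑ i, g (a i)} ≤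
      (Measure.pi fun _ : Fin n => μ).real {a | Real.exp t ≤ Real.exp (∑ i, g (a i))} := by
    apply measureReal_mono
    · intro a ha
      exact Real.exp_le_exp.2 (le_of_lt ha)
    · exact measure_ne_top _ _
  have h7 : Real.exp t * (Measure.pi fun _ : Fin n => μ).real {a | t < ∑ i, g (a i)} ≤
      Real.exp (n * b) :=
    (mul_le_mul_of_nonneg_left h6 (Real.exp_pos t).le).trans (h4.trans h5)
  rw [Real.exp_sub, le_div_iff₀ (Real.exp_pos t), mul_comm]
  exact h7

lemma log6 : 1 < Real.log 6 := by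
  rw [Real.lt_log_iff_exp_lt (by norm_num)]
  have := Real.exp_one_lt_d9
  linarith

lemma L_ge {ε : ℝ} (hε : 0 < ε) (hε6 : ε ≤ 1 / 6) : Real.log 6 ≤ Real.log (1 / ε) := by
  apply Real.log_le_log (by norm_num)
  rw [le_div_iff₀ hε]
  linarith

lemma L_gt_one {ε : ℝ} (hε : 0 < ε) (hε6 : ε ≤ 1 / 6) : 1 < Real.log (1 / ε) :=
  log6.trans_le (L_ge hε hε6)

lemma exp_neg_L {ε : ℝ} (hε : 0 < ε) : Real.exp (-Real.log (1 / ε)) = ε := by
  rw [one_div, Real.log_inv, neg_neg, Real.exp_log hε]

lemma sm_meas (β : ℝ) : Measurable (sm β) := by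
  unfold sm
  apply Measurable.ite _ measurable_id measurable_const
  exact measurableSet_le measurable_norm measurable_const

lemma lgp_meas (β : ℝ) : Measurable (lgp β) := by
  unfold lgp
  apply Measurable.ite _ measurable_const measurable_norm
  exact measurableSet_le measurable_norm measurable_const

lemma log_one_add_ge {z : ℝ} (hz : 0 ≤ z) : z / (1 + z) ≤ Real.log (1 + z) := by
  have h := Real.one_sub_inv_le_log_of_pos (show 0 < 1 + z by linarith)
  have h2 : z / (1 + z) = 1 - (1 + z)⁻¹ := by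
    field_simp
    ring
  rw [h2]
  exact h

end Pool.Agent.H97.NR
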