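import Pool.Agent.H97.NR.Tools

set_option autoImplicit false

open MeasureTheory ProbabilityTheory

noncomputable section

open Classical

namespace Pool.Agent.H97.NR

open Pool.Agent.H99.NR

/-- the exponential sum over all sign vectors -/
lemma sum_signs (n : ℕ) (q : ℝ) :
    ∑ x : Fin n → SignType, q ^ sz x = (1 + 2 * q) ^ n := by
  have h1 : ∀ x : Fin n → SignType, q ^ sz x = ∏ j, (if x j ≠ 0 then q else 1) := by
    intro x
    rw [Finset.prod_ite, Finset.prod_const_one, mul_one, Finset.prod_const]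
    rfl
  simp_rw [h1]
  have h2 := Finset.prod_univ_sum (fun _ : Fin n => (Finset.univ : Finset SignType))
    (fun _ s => if s ≠ 0 then q else 1)
  rw [Fintype.piFinset_univ] at h2
  rw [← h2]
  have h3 : ∑ s : SignType, (if s ≠ 0 then q else 1) = 1 + 2 * q := by
    rw [show (Finset.univ : Finset SignType) = {0, 1, -1} from by decide]
    rw [Finset.sum_insert (by decide), Finset.sum_insert (by decide), Finset.sum_singleton]
    simp
    ring
  rw [Finset.prod_congr rfl (fun _ _ => h3)]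
  simp

theorem UNI (hM : S_MGR) : S_UNI := by
  intro K hK
  obtain ⟨C₁, C₂, hC1, hC2, hmgr⟩ := hM K hK
  refine ⟨C₁ * (C₂ + 5), by positivity, ?_⟩
  intro ε n κ ν hn hε hε6 h hc
  have hprob := h.prob
  set L := Real.log (1 / ε) with hLdef
  have hL1 : 1 < L := L_gt_one hε hε6
  have hn0 : (0:ℝ) < n := by exact_mod_cast hn
  have hprow : IsProbabilityMeasure (rowLaw n ν) := by unfold rowLaw; infer_instance
  set β : ℝ := K * √n / 2 ^ κ with hβ
  set u : ℝ := ∫ a, sm β a ∂ν with hu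
  -- one vector
  have hone : ∀ x : Fin n → SignType, ε * n / 4 ≤ sz x →
      (matLaw n ν).real {a | C₁ * (C₂ + 5) * n * L * sz x < ∑ i, Yr K L n β u x (a i) ^ 2} ≤
        Real.exp (-(ε * n / 4 * L)) * (ε ^ 4) ^ sz x := by
    intro x hx
    obtain ⟨hint, hbd⟩ := hmgr ε n κ ν hn hε hε6 h hc x hx
    have hmain := pi_markov (rowLaw n ν) n (fun r => Yr K L n β u x r ^ 2 / (C₁ * n)) hint
      (C₂ * (sz x / n)) hbd ((C₂ + 5) * L * sz x)
    have hset : {a : Fin n → Fin n → ℝ | C₁ * (C₂ + 5) * n * L * sz x <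
        ∑ i, Yr K L n β u x (a i) ^ 2} =
        {a | (C₂ + 5) * L * sz x < ∑ i, Yr K L n β u x (a i) ^ 2 / (C₁ * n)} := by
      ext a
      simp only [Set.mem_ofPred_eq]
      rw [← Finset.sum_div, lt_div_iff₀ (by positivity)]
      have : (C₂ + 5) * L * sz x * (C₁ * n) = C₁ * (C₂ + 5) * n * L * sz x := by ring
      rw [this]
    rw [hset]
    unfold matLaw
    refine hmain.trans ?_
    have h1 : (ε ^ 4) ^ sz x = Real.exp (-(4 * L * sz x)) := by
      have h2 : -(4 * L * (sz x : ℝ)) = (sz x : ℝ) * ((4:ℕ) * (-L)) := by push_cast; ring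
      rw [h2, Real.exp_nat_mul, Real.exp_nat_mul, exp_neg_L hε]
    rw [h1, ← Real.exp_add]
    apply Real.exp_le_exp.2
    have h3 : (n:ℝ) * (C₂ * (sz x / n)) = C₂ * sz x := by
      field_simp
    rw [h3]
    have h4 : C₂ * sz x * 1 ≤ C₂ * sz x * L := mul_le_mul_of_nonneg_left hL1.le (by positivity)
    have h5 : ε * n / 4 * L ≤ sz x * L := mul_le_mul_of_nonneg_right hx (by linarith)
    nlinarith
  -- union bound
  have hprm : IsProbabilityMeasure (matLaw n ν) := by unfold matLaw; infer_instance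
  have hsub : {a : Fin n → Fin n → ℝ | ∃ x : Fin n → SignType, ε * n / 4 ≤ sz x ∧
      C₁ * (C₂ + 5) * n * L * sz x < ∑ i, Yr K L n β u x (a i) ^ 2} ⊆
      ⋃ x ∈ (Finset.univ.filter fun x : Fin n → SignType => ε * n / 4 ≤ sz x),
        {a | C₁ * (C₂ + 5) * n * L * sz x < ∑ i, Yr K L n β u x (a i) ^ 2} := by
    rintro a ⟨x, hx1, hx2⟩
    simp only [Set.mem_iUnion]
    exact ⟨x, by simpa using hx1, hx2⟩
  have h1 := measureReal_mono (μ := matLaw n ν) hsub (measure_ne_top _ _)
  have h2 := measureReal_biUnion_finset_le (μ := matLaw n ν)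
    (Finset.univ.filter fun x : Fin n → SignType => ε * n / 4 ≤ sz x)
    (fun x => {a : Fin n → Fin n → ℝ | C₁ * (C₂ + 5) * n * L * sz x <
      ∑ i, Yr K L n β u x (a i) ^ 2})
  refine (h1.trans h2).trans ?_
  have h3 : ∑ x ∈ (Finset.univ.filter fun x : Fin n → SignType => ε * n / 4 ≤ sz x),
      (matLaw n ν).real {a | C₁ * (C₂ + 5) * n * L * sz x < ∑ i, Yr K L n β u x (a i) ^ 2} ≤
      ∑ x ∈ (Finset.univ.filter fun x : Fin n → SignType => ε * n / 4 ≤ sz x),
        Real.exp (-(ε * n / 4 * L)) * (ε ^ 4) ^ sz x := by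
    apply Finset.sum_le_sum
    intro x hx
    exact hone x (by simpa using hx)
  have h4 : ∑ x ∈ (Finset.univ.filter fun x : Fin n → SignType => ε * n / 4 ≤ sz x),
        Real.exp (-(ε * n / 4 * L)) * (ε ^ 4) ^ sz x ≤
      ∑ x : Fin n → SignType, Real.exp (-(ε * n / 4 * L)) * (ε ^ 4) ^ sz x := by
    apply Finset.sum_le_univ_sum_of_nonneg
    intro x
    positivity
  have h4' : ∑ x : Fin n → SignType, Real.exp (-(ε * n / 4 * L)) * (ε ^ 4) ^ sz x =
      Real.exp (-(ε * n / 4 * L)) * (1 + 2 * ε ^ 4) ^ n := by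
    rw [← Finset.mul_sum, sum_signs]
  rw [h4'] at h4
  refine (h3.trans h4).trans ?_
  have h5 : (1 + 2 * ε ^ 4) ^ n ≤ Real.exp (n * (2 * ε ^ 4)) := by
    rw [Real.exp_nat_mul]
    apply pow_le_pow_left₀ (by positivity)
    have := Real.add_one_le_exp (2 * ε ^ 4)
    linarith
  calc Real.exp (-(ε * n / 4 * L)) * (1 + 2 * ε ^ 4) ^ n
      ≤ Real.exp (-(ε * n / 4 * L)) * Real.exp (n * (2 * ε ^ 4)) :=
        mul_le_mul_of_nonneg_left h5 (Real.exp_pos _).le
    _ = Real.exp (-(ε * n / 4 * L) + n * (2 * ε ^ 4)) := (Real.exp_add _ _).symm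
    _ ≤ Real.exp (-(2 / 5 * (ε * n))) := by
        apply Real.exp_le_exp.2
        have h6 : ε ^ 3 ≤ (1 / 6) ^ 3 := pow_le_pow_left₀ hε.le hε6 3
        have h7 : (n:ℝ) * (2 * ε ^ 4) = 2 * ε ^ 3 * (ε * n) := by ring
        have h8 : 0 < ε * n := by positivity
        have h9 : (7:ℝ) / 4 ≤ L := by
          have h10 : (7 / 4 : ℝ) ≤ Real.log 6 := by
            rw [Real.le_log_iff_exp_le (by norm_num)]
            have h11 : Real.exp (7 / 4) ^ 4 = Real.exp 1 ^ 7 := by
              rw [← Real.exp_nat_mul, ← Real.exp_nat_mul]; norm_num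
            have h12 : Real.exp 1 ^ 7 ≤ 2.7182818286 ^ 7 :=
              pow_le_pow_left₀ (Real.exp_pos _).le Real.exp_one_lt_d9.le 7
            have h13 : Real.exp (7 / 4) ^ 4 ≤ 6 ^ 4 := by
              rw [h11]
              refine h12.trans ?_
              norm_num
            exact le_of_pow_le_pow_left₀ (by norm_num) (by norm_num) h13
          exact h10.trans (L_ge hε hε6)
        rw [h7]
        have h14 : ε * n / 4 * (7 / 4) ≤ ε * n / 4 * L :=
          mul_le_mul_of_nonneg_left h9 (by positivity)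
        have h15 : 2 * ε ^ 3 * (ε * n) ≤ 2 * (1 / 6) ^ 3 * (ε * n) := by
          apply mul_le_mul_of_nonneg_right _ h8.le
          linarith
        nlinarith

end Pool.Agent.H97.NR
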